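import Mathlib

set_option autoImplicit false

namespace Pool.Agent.H.MP_a16b96_lc

open Set Filter Topology Function TopologicalSpace

theorem pol : PolishSpace ℕ∞ := by
  let := metrizableSpaceMetric ℕ∞
  have : CompleteSpace ℕ∞ := complete_of_compact
  infer_instance

theorem bd {K : Set (ℕ → ℕ∞)} (hK : IsClosed K) (h : ∀ l : List ℕ∞, (fun n => l.getD n ⊤) ∉ K) :
    ∃ g : ℕ → ℕ, ∀ x ∈ K, ∀ n, ∃ k, n ≤ k ∧ x k < g n := by
  have : ∀ n, ∃ m : ℕ, K ⊆ {x | ∃ k, n ≤ k ∧ x k < m} := fun n =>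
    hK.isCompact.elim_directed_cover (fun m : ℕ => {x : ℕ → ℕ∞ | ∃ k, n ≤ k ∧ x k < m})
      (fun m => by
        simp only [ofPred_exists, ofPred_and]
        exact isOpen_iUnion fun k => isOpen_const.inter (isOpen_lt (by fun_prop) (by fun_prop)))
      (fun x hx => by
        by_contra h'
        simp only [mem_iUnion, mem_ofPred_eq, not_exists, not_and, not_lt] at h'
        refine h (List.ofFn fun i : Fin n => x i) ?_
        convert hx with k
        by_cases hk : k < n
        · simp [hk]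
        · rw [List.getD_eq_default _ _ (by simpa using hk)]
          exact (ENat.eq_top_iff_forall_ge.2 fun m => h' m k (not_lt.1 hk)).symm)
      (Monotone.directed_le fun a b hab x ⟨k, h1, h2⟩ => ⟨k, h1, h2.trans_le (by exact_mod_cast hab)⟩)
  choose g hg using this
  exact ⟨g, fun x hx n => hg n hx⟩

theorem ku {W Y ι : Type} [TopologicalSpace W] [BaireSpace W] [SecondCountableTopology W]
    [TopologicalSpace Y] [Countable ι] (U : ℕ → ℕ → ι → Set Y) (h1 : ∀ n l a, IsOpen (U n l a))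
    (h2 : ∀ n l a, (U n l a).Nonempty)
    (h3 : ∀ V, IsOpen V → V.Nonempty → ∃ l, ∀ n a, U n l a ⊆ V) (d : ℕ → ℕ → W → ι)
    (hd : ∀ n l a, BaireMeasurableSet {w | d n l w = a}) :
    ∀ᶠ y in residual Y, ∀ᶠ w in residual W, ∀ n, ∃ l, y ∈ U n l (d n l w) := by
  choose O o1 o2 using fun n l a => (hd n l a).residualEq_isOpen
  have G : ∀ᶠ w in residual W, ∀ n l a, d n l w = a ↔ w ∈ O n l a := by
    simp only [eventually_countable_forall]
    exact fun n l a => eventuallyEq_set.1 (o2 n l a)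
  have : ∀ᶠ y in residual Y, ∀ n, ∀ B ∈ countableBasis W,
      y ∈ ⋃ l, ⋃ a, ⋃ _ : (B ∩ O n l a).Nonempty, U n l a := eventually_countable_forall.2 fun n =>
    (eventually_countable_ball (countable_countableBasis W)).2 fun B hB =>
      residual_of_dense_open (isOpen_iUnion fun l => isOpen_iUnion fun a =>
        isOpen_iUnion fun _ => h1 n l a) (dense_iff_inter_open.2 fun V v1 v2 => by
          obtain ⟨l, hl⟩ := h3 V v1 v2
          obtain ⟨w, w1, w2⟩ := (dense_of_mem_residual G).inter_open_nonempty B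
            (isOpen_of_mem_countableBasis hB) (nonempty_of_mem_countableBasis hB)
          obtain ⟨y, hy⟩ := h2 n l (d n l w)
          exact ⟨y, hl n _ hy, mem_iUnion.2 ⟨l, mem_iUnion₂.2 ⟨_, ⟨w, w1, (w2 n l _).1 rfl⟩, hy⟩⟩⟩)
  filter_upwards [this] with y hy
  have h4 : ∀ᶠ w in residual W, ∀ n, w ∈ ⋃ l, ⋃ a, ⋃ _ : y ∈ U n l a, O n l a :=
    eventually_countable_forall.2 fun n => residual_of_dense_open (isOpen_iUnion fun l =>
      isOpen_iUnion fun a => isOpen_iUnion fun _ => o1 n l a)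
      ((isBasis_countableBasis W).dense_iff.2 fun B hB _ => by
        simp only [mem_iUnion] at hy
        obtain ⟨l, a, ⟨w, w1, w2⟩, h⟩ := hy n B hB
        exact ⟨w, w1, mem_iUnion.2 ⟨l, mem_iUnion₂.2 ⟨a, h, w2⟩⟩⟩)
  filter_upwards [G, h4] with w w1 w2 n
  simp only [mem_iUnion] at w2
  obtain ⟨l, a, h, h'⟩ := w2 n
  exact ⟨l, (w1 n l a).2 h' ▸ h⟩

theorem cm {W : Type} [TopologicalSpace W] [T1Space W] [PerfectSpace W] {T : Set W}
    (h : T.Countable) : IsMeagre T := by
  rw [← biUnion_of_singleton T]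
  exact isMeagre_biUnion h fun x _ =>
    residual_of_dense_open isOpen_compl_singleton (dense_compl_singleton x)

end Pool.Agent.H.MP_a16b96_lc
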